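import Pool.Agent.Results.MP_2a5a28_nt.AlmostAllTriples
import Pool.Agent.Results.MP_2a5a28_nt.ExceptionalSet
import Pool.Agent.X149.MetricBalls

/-!
# The abc conjecture over `ℤ[(1 + √5) / 2]` near almost every point of the plane

For a triple `a + b + c = 0` in lowest terms of integers of `K = ℚ(√5)` the two conjugates of `a / b`
form a point of the plane, which is considered as an approximation of a point `z`. For almost every `z`
all but finitely many of the quotients at distance at most `A / H` from `z`, where `H` is the height of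
the triple, satisfy `rad > B H ^ λ`, for all `λ < 3`; the exponent `3` is optimal, and the conjecture
asks for `λ < 1`. The set of the `z` with infinitely many approximations of order `τ` violating the
conjecture has Hausdorff dimension at most `20 / (37 τ)`.
-/

set_option autoImplicit false

open MeasureTheory Filter Set NumberField
open scoped ENNReal NNReal

namespace Pool.Agent.Results.MP_2a5a28_nt.MetricTheory

open Pool.Agent.X149.MetricBalls
open Pool.Agent.Results.MP_2a5a28_nt.AlmostAllTriples (Triple height rad Ineq height_pos hgt_eq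
  rad_eq one_le_rad upper small)

variable {K : Type} [Field K] [NumberField K]

/-- the conjugates of `x`, a point of the plane for `K = ℚ(√5)` -/
noncomputable def conj (x : K) : (K →+* ℂ) → ℝ := fun φ => (φ x).re

/-- the numbers `x = a / b`, where `a + b + c = 0` is a triple `t` in lowest terms with `abc ≠ 0`, such
that `x` has distance at most `A height(t) ^ (-τ)` from `z` in both conjugates and
`rad(t) ≤ B height(t) ^ lam` -/
def Bad (A B τ lam : ℝ) (z : (K →+* ℂ) → ℝ) : Set K :=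
  {x | ∃ t : 𝓞 K × 𝓞 K × 𝓞 K, Triple t ∧ (t.1 : K) / (t.2.1 : K) = x ∧
    dist z (conj x) ≤ A * height t ^ (-τ) ∧ rad t ≤ B * height t ^ lam}

open Classical in
/-- a triple of `x` -/
noncomputable def tr (x : K) : 𝓞 K × 𝓞 K × 𝓞 K :=
  if h : ∃ t : 𝓞 K × 𝓞 K × 𝓞 K, Triple t ∧ (t.1 : K) / (t.2.1 : K) = x then h.choose else 0

lemma tr_spec {x : K} (h : ∃ t : 𝓞 K × 𝓞 K × 𝓞 K, Triple t ∧ (t.1 : K) / (t.2.1 : K) = x) :
    Triple (tr x) ∧ ((tr x).1 : K) / ((tr x).2.1 : K) = x := by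
  unfold tr
  rw [dif_pos h]
  exact h.choose_spec

lemma height_tr {x : K} {t : 𝓞 K × 𝓞 K × 𝓞 K} (ht : Triple t) (hx : (t.1 : K) / (t.2.1 : K) = x) :
    height (tr x) = height t := by
  obtain ⟨h1, h2⟩ := tr_spec ⟨t, ht, hx⟩
  have h3 : Real.log (height (tr x)) = Real.log (height t) := by
    rw [hgt_eq h1, hgt_eq ht]
    unfold Pool.Agent.TH402.AK.pt
    rw [h2, hx]
  exact Real.log_injOn_pos (height_pos h1) (height_pos ht) h3

lemma rad_tr {x : K} {t : 𝓞 K × 𝓞 K × 𝓞 K} (ht : Triple t) (hx : (t.1 : K) / (t.2.1 : K) = x) :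
    rad (tr x) = rad t := by
  obtain ⟨h1, h2⟩ := tr_spec ⟨t, ht, hx⟩
  rw [rad_eq h1, rad_eq ht]
  unfold Pool.Agent.TH402.AK.pt
  rw [h2, hx]

lemma one_le_height {t : 𝓞 K × 𝓞 K × 𝓞 K} (ht : Triple t) : 1 ≤ height t := by
  have h1 : 0 ≤ Real.log (height t) := by
    rw [hgt_eq ht]
    exact Pool.Agent.TH876.Loc.hgt_nonneg _
  by_contra h
  have := Real.log_neg (height_pos ht) (not_le.1 h)
  linarith

/-- the height of `x` -/
noncomputable def sz (x : K) : ℝ := max 1 (height (tr x))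

lemma sz_eq {x : K} {t : 𝓞 K × 𝓞 K × 𝓞 K} (ht : Triple t) (hx : (t.1 : K) / (t.2.1 : K) = x) :
    sz x = height t := by
  unfold sz
  rw [height_tr ht hx]
  exact max_eq_right (one_le_height ht)

/-- the `x` of small radical -/
def Small (B lam : ℝ) : Set K :=
  {x | (∃ t : 𝓞 K × 𝓞 K × 𝓞 K, Triple t ∧ (t.1 : K) / (t.2.1 : K) = x) ∧
    rad (tr x) ≤ B * sz x ^ lam}

lemma image_ineq (F : Finset K) [DecidableEq (𝓞 K × 𝓞 K × 𝓞 K)]
    (hF : ∀ x ∈ F, ∃ t : 𝓞 K × 𝓞 K × 𝓞 K, Triple t ∧ (t.1 : K) / (t.2.1 : K) = x) :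
    Ineq (F.image tr) ∧ (F.image tr).card = F.card := by
  constructor
  · intro t ht s hs u hu
    obtain ⟨x, hx, rfl⟩ := Finset.mem_image.1 ht
    obtain ⟨y, hy, rfl⟩ := Finset.mem_image.1 hs
    obtain ⟨h1, h2⟩ := tr_spec (hF x hx)
    obtain ⟨h3, h4⟩ := tr_spec (hF y hy)
    have h5 : y = x := by
      rw [← h4, ← h2, hu]
      have hb : ((tr x).2.1 : K) ≠ 0 := Pool.Agent.TH402.AK.coe_ne h1.tr.tri.b0
      have hu0 : ((u : 𝓞 K) : K) ≠ 0 := Pool.Agent.TH402.AK.coe_ne u.ne_zero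
      push_cast
      field_simp
    rw [h5]
  · apply Finset.card_image_of_injOn
    intro x hx y hy hxy
    rw [← (tr_spec (hF x hx)).2, ← (tr_spec (hF y hy)).2, hxy]

/-- a set is finite if its finite subsets have bounded size -/
lemma finite_of_card {α : Type} {s : Set α} {C : ℝ}
    (h : ∀ F : Finset α, (F : Set α) ⊆ s → (F.card : ℝ) ≤ C) : s.Finite ∧ ((s.ncard : ℕ) : ℝ) ≤ C := by
  have hfin : s.Finite := by
    by_contra hinf
    obtain ⟨n, hn⟩ := exists_nat_gt C
    obtain ⟨F, hF, hc⟩ := Set.Infinite.exists_subset_card_eq hinf n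
    have := h F hF
    rw [hc] at this
    linarith
  refine ⟨hfin, ?_⟩
  rw [Set.ncard_eq_toFinset_card s hfin]
  exact h _ (by simp)

lemma sparse_all (B : ℝ) {lam : ℝ} (hlam : 0 < lam) :
    Sparse (Small (K := K) B lam) sz (2 * lam / 3) := by
  classical
  intro ε hε
  obtain ⟨C, hC, h⟩ := upper K (ε / lam) (by positivity)
  set B' : ℝ := max B 1 with hB'
  have hB1 : 1 ≤ B' := le_max_right _ _
  refine ⟨C * B' ^ (2 / 3 + ε / lam), fun X hX => ?_⟩
  have hX0 : 0 < X := by linarith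
  apply finite_of_card
  intro F hF
  have hXl : 1 ≤ X ^ lam := Real.one_le_rpow hX hlam.le
  obtain ⟨h1, h2⟩ := image_ineq F (fun x hx => (hF hx).1.1)
  have h3 := h (B' * X ^ lam) (by nlinarith) (F.image tr) h1 (by
    intro t ht
    obtain ⟨x, hx, rfl⟩ := Finset.mem_image.1 ht
    obtain ⟨⟨h4, h5⟩, h6⟩ := hF hx
    refine ⟨(tr_spec h4).1, h5.trans ?_⟩
    have h7 : (1 : ℝ) ≤ sz x := le_max_left _ _
    have h8 : sz x ^ lam ≤ X ^ lam := Real.rpow_le_rpow (by linarith) h6 hlam.le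
    exact mul_le_mul (le_max_left _ _) h8 (by positivity) (by linarith))
  rw [h2] at h3
  refine h3.trans (le_of_eq ?_)
  rw [Real.mul_rpow (by linarith) (by positivity), ← Real.rpow_mul hX0.le, mul_assoc]
  congr 3
  field_simp

lemma sparse_one (hK : Module.finrank ℚ K = 2) (h5 : ∃ s : K, s ^ 2 = 5) (B : ℝ) {lam : ℝ}
    (hlam : lam ≤ 1) : Sparse (Small (K := K) B lam) sz (20 / 37) := by
  classical
  intro ε hε
  obtain ⟨C, h⟩ := ExceptionalSet.result K hK h5 (max B 0) ε hε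
  refine ⟨C, fun X hX => ?_⟩
  apply finite_of_card
  intro F hF
  obtain ⟨h1, h2⟩ := image_ineq F (fun x hx => (hF hx).1.1)
  have h3 := h X hX (F.image tr) (by
    intro t ht
    obtain ⟨x, hx, rfl⟩ := Finset.mem_image.1 ht
    obtain ⟨⟨h4, h5⟩, h6⟩ := hF hx
    obtain ⟨h9, h10⟩ := tr_spec h4
    have h11 : sz x = height (tr x) := sz_eq h9 h10
    refine ⟨⟨h9.sum, h9.ne, h9.cop⟩, ?_, ?_⟩
    · rw [h11] at h6
      exact h6
    · have h7 : (1 : ℝ) ≤ height (tr x) := one_le_height h9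
      rw [h11] at h5
      have h8 : height (tr x) ^ lam ≤ height (tr x) := by
        calc height (tr x) ^ lam ≤ height (tr x) ^ (1 : ℝ) :=
              Real.rpow_le_rpow_of_exponent_le h7 hlam
          _ = height (tr x) := Real.rpow_one _
      refine h5.trans ?_
      exact mul_le_mul (le_max_left _ _) h8 (by positivity) (le_max_right _ _)) h1
  rw [h2] at h3
  exact h3

lemma bad_near {A B τ lam : ℝ} {z : (K →+* ℂ) → ℝ} :
    Bad A B τ lam z ⊆ Near (Small B lam) sz conj A τ z := by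
  rintro x ⟨t, ht, hx, h1, h2⟩
  have h3 := sz_eq ht hx
  refine ⟨⟨⟨t, ht, hx⟩, ?_⟩, ?_⟩
  · rw [rad_tr ht hx, h3]
    exact h2
  · rw [h3]
    exact h1

lemma bad_mono {A A' B B' τ τ' lam lam' : ℝ} (hA : A ≤ A') (hA' : 0 ≤ A') (hB : B ≤ B')
    (hB' : 0 ≤ B') (hτ : τ' ≤ τ) (hlam : lam ≤ lam') (z : (K →+* ℂ) → ℝ) :
    Bad A B τ lam z ⊆ Bad A' B' τ' lam' z := by
  rintro x ⟨t, ht, hx, hd, hr⟩
  have h1 : 1 ≤ height t := one_le_height ht
  refine ⟨t, ht, hx, hd.trans ?_, hr.trans ?_⟩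
  · exact mul_le_mul hA (Real.rpow_le_rpow_of_exponent_le h1 (by linarith)) (by positivity) hA'
  · exact mul_le_mul hB (Real.rpow_le_rpow_of_exponent_le h1 hlam) (by positivity) hB'

lemma countable_field : Countable K :=
  (Module.finBasis ℚ K).equivFun.toEquiv.injective.countable

lemma ball (hK : Module.finrank ℚ K = 2) (x : (K →+* ℂ) → ℝ) (r : ℝ) (hr : 0 ≤ r) :
    volume (Metric.closedBall x r) ≤ ENNReal.ofReal (4 * r ^ (2 : ℝ)) := by
  rw [Real.volume_pi_closedBall _ hr, NumberField.Embeddings.card K ℂ, hK, Real.rpow_two]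
  apply ENNReal.ofReal_le_ofReal
  rw [mul_pow]
  norm_num

/-- all parameters at once -/
lemma all_null (hK : Module.finrank ℚ K = 2) : ∀ᵐ z : (K →+* ℂ) → ℝ, ∀ A B τ lam : ℝ,
    0 < τ → lam < 3 * τ → (Bad A B τ lam z).Finite := by
  have := countable_field (K := K)
  have h : ∀ᵐ z : (K →+* ℂ) → ℝ, ∀ (A B : ℕ) (τ lam : ℚ), (0 : ℝ) < τ → (0 : ℝ) < lam →
      (lam : ℝ) < 3 * τ → (Bad A B τ lam z).Finite := by
    simp only [ae_all_iff]
    intro A B τ lam hτ hlam h
    have h1 := near_null (μ := (volume : Measure ((K →+* ℂ) → ℝ))) (by norm_num) (ball hK)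
      (h := sz) (fun p => le_max_left _ _) conj (A : ℝ) (sparse_all (B : ℝ) hlam)
      (by positivity) (show 2 * (lam : ℝ) / 3 < 2 * τ by linarith)
    filter_upwards [h1] with z hz
    exact hz.subset bad_near
  filter_upwards [h] with z hz A B τ lam hτ hlam
  obtain ⟨A', hA'⟩ := exists_nat_ge A
  obtain ⟨B', hB'⟩ := exists_nat_ge B
  have hm : max lam 0 < 3 * τ := max_lt hlam (by linarith)
  obtain ⟨lam', h5, h6⟩ := exists_rat_btwn hm
  obtain ⟨τ', h1, h2⟩ := exists_rat_btwn (show (lam' : ℝ) / 3 < τ by linarith)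
  have h0 : (0 : ℝ) < lam' := lt_of_le_of_lt (le_max_right _ _) h5
  refine (hz A' B' τ' lam' (by linarith) h0 (by linarith)).subset ?_
  exact bad_mono hA' (Nat.cast_nonneg _) hB' (Nat.cast_nonneg _) h2.le
    ((le_max_left _ _).trans h5.le) z

lemma one_null (hK : Module.finrank ℚ K = 2) (hs : ∃ s : K, s ^ 2 = 5) :
    ∀ᵐ z : (K →+* ℂ) → ℝ, ∀ A B τ : ℝ, 10 / 37 < τ → (Bad A B τ 1 z).Finite := by
  have := countable_field (K := K)
  have h : ∀ᵐ z : (K →+* ℂ) → ℝ, ∀ (A B : ℕ) (τ : ℚ), 10 / 37 < (τ : ℝ) →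
      (Bad A B τ 1 z).Finite := by
    simp only [ae_all_iff]
    intro A B τ hτ
    have h1 := near_null (μ := (volume : Measure ((K →+* ℂ) → ℝ))) (by norm_num) (ball hK)
      (h := sz) (fun p => le_max_left _ _) conj (A : ℝ) (sparse_one hK hs (B : ℝ) le_rfl)
      (by norm_num) (show (20 / 37 : ℝ) < 2 * τ by linarith)
    filter_upwards [h1] with z hz
    exact hz.subset bad_near
  filter_upwards [h] with z hz A B τ hτ
  obtain ⟨A', hA'⟩ := exists_nat_ge A
  obtain ⟨B', hB'⟩ := exists_nat_ge B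
  obtain ⟨τ', h1, h2⟩ := exists_rat_btwn hτ
  refine (hz A' B' τ' h1).subset ?_
  exact bad_mono hA' (Nat.cast_nonneg _) hB' (Nat.cast_nonneg _) h2.le le_rfl z

lemma dim_bound {A B τ lam κ : ℝ} (hτ : 0 < τ) (hκ : 0 ≤ κ)
    (hS : Sparse (Small (K := K) B lam) sz κ) :
    dimH {z : (K →+* ℂ) → ℝ | (Bad A B τ lam z).Infinite} ≤ ENNReal.ofReal (κ / τ) := by
  have := countable_field (K := K)
  refine (dimH_mono ?_).trans (near_dim (h := sz) (fun p => le_max_left _ _) conj A hS hκ hτ)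
  intro z hz
  exact hz.mono bad_near

/-- **Main theorem.** Let `K = ℚ(√5)`.
(1) For almost every point `z` of the plane, for all `A`, `B` and `λ < 3`, only finitely many `x = a / b`
with `a + b + c = 0` in lowest terms have distance at most `A / H` from `z` and `rad ≤ B H ^ λ`, where
`H` is the height of `(a, b, c)`; the same holds for the distance `A H ^ (-τ)` and `λ < 3 τ`, and for
`λ = 1` and `τ > 10 / 37`.
(2) For `τ, λ > 0` the set of the points `z` with infinitely many `x` at distance at most `A H ^ (-τ)`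
and with `rad ≤ B H ^ λ` has Hausdorff dimension at most `2 λ / (3 τ)`, and at most `20 / (37 τ)` if
`λ ≤ 1`.
(3) `rad ≤ H ^ 3` for all triples, so the bound `λ < 3` cannot be improved. -/
theorem result : ∀ (K : Type) [Field K] [NumberField K], Module.finrank ℚ K = 2 →
    (∃ s : K, s ^ 2 = 5) →
    (∀ᵐ z : (K →+* ℂ) → ℝ,
      (∀ A B lam : ℝ, lam < 3 → (Bad A B 1 lam z).Finite) ∧
      (∀ A B τ lam : ℝ, 0 < τ → lam < 3 * τ → (Bad A B τ lam z).Finite) ∧
      (∀ A B τ : ℝ, 10 / 37 < τ → (Bad A B τ 1 z).Finite)) ∧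
    (∀ A B τ lam : ℝ, 0 < τ → 0 < lam →
      dimH {z : (K →+* ℂ) → ℝ | (Bad A B τ lam z).Infinite} ≤ ENNReal.ofReal (2 * lam / (3 * τ)) ∧
      (lam ≤ 1 → dimH {z : (K →+* ℂ) → ℝ | (Bad A B τ lam z).Infinite} ≤
        ENNReal.ofReal (20 / (37 * τ)))) ∧
    (∀ t : 𝓞 K × 𝓞 K × 𝓞 K, Triple t → rad t ≤ height t ^ 3) := by
  intro K _ _ hK hs
  refine ⟨?_, ?_, ?_⟩
  · filter_upwards [all_null hK, one_null hK hs] with z h1 h2
    exact ⟨fun A B lam hlam => h1 A B 1 lam one_pos (by linarith), h1, h2⟩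
  · intro A B τ lam hτ hlam
    constructor
    · have h1 := dim_bound (K := K) (A := A) hτ (by positivity) (sparse_all B hlam)
      have h2 : 2 * lam / 3 / τ = 2 * lam / (3 * τ) := by field_simp
      rwa [h2] at h1
    · intro hl
      have h1 := dim_bound (K := K) (A := A) hτ (by norm_num) (sparse_one hK hs B hl)
      have h2 : (20 / 37 : ℝ) / τ = 20 / (37 * τ) := by field_simp
      rwa [h2] at h1
  · intro t ht
    have h2 := Pool.Agent.Y728.AK.rad_le_three ht.tr.tri.pt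
    rw [← rad_eq ht, ← hgt_eq ht] at h2
    have h3 : 0 < rad t := by linarith [one_le_rad ht]
    rw [← Real.log_le_log_iff h3 (pow_pos (height_pos ht) 3), Real.log_pow]
    exact_mod_cast h2

end Pool.Agent.Results.MP_2a5a28_nt.MetricTheory
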