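import Pool.Agent.Results.MP_2a5a28_nt.AllThinSetsAtOnce
import Pool.Agent.Y854.GM.Win

/-!
# The abc inequality over `ℤ[(1 + √5) / 2]` for ALL triples whose radical is in windows around thin sequences

Let `K = ℚ(√5)`, `D ≥ 1`, `q ≥ 3` and `M > D / q` (for the line `a + b + c = 0` itself `D = 1`, `q = 3`). There is `ν > 0`
such that for every sequence `v ≥ 1` of exponent of convergence at most `τ` (for `v_i = (i + 1) ^ a` this is `1 / a`, for
`v_i = b ^ i` it is `0`) and `ρ < 1` there is ONE set `E ⊂ ℝ` of Hausdorff dimension at most `(2 / q - ν + τ) / (1 - ρ)` such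
that for each `α > 0` outside `E`, each map `P` of degree `D` of the projective line to the line `a + b + c = 0` with `q`
points over the points with `abc = 0` and each `c > 0`, for all but finitely many `i`: ALL triples `a + b + c = 0` in lowest
terms in the image of `ℙ¹(K)` with `|rad(abc) - α v_i| ≤ v_i ^ ρ` satisfy `H(a, b, c) < c rad(abc) ^ M`, of whatever height
they are. The number of exceptions is from the starting result `AllThinSetsAtOnce`.
-/

set_option autoImplicit false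

open NumberField IsDedekindDomain Polynomial

namespace Pool.Agent.Results.MP_2a5a28_nt.RadicalsInWindows

open AllThinSetsAtOnce (zeros Triple rad height Curve coordinates IsClass Exceptions class_eq rad_pos dgr_eq)
open Pool.Agent.Y557.U (rS)

/-- the exponent of convergence of the sequence `v` is at most `τ` -/
def ExpLe (v : ℕ → ℝ) (τ : ℝ) : Prop := ∀ t : ℝ, τ < t → Summable (fun n : ℕ => (v n) ^ (-t))

section aux

variable {K : Type} [Field K] [NumberField K]

lemma rad_of_class (hK : Module.finrank ℚ K = 2) {D : ℕ} {P : Fin 3 → K[X]} {Q : Projectivization K (Fin 3 → K)}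
    {t : 𝓞 K × 𝓞 K × 𝓞 K} (ht : Triple t) (h : IsClass D P Q t) :
    Real.exp (2 * rS ((∅ : Finset (HeightOneSpectrum (𝓞 K))) : Set (HeightOneSpectrum (𝓞 K))) Q.rep) = rad t := by
  obtain ⟨u, hx, hQ, s, hs, e0, e1, e2⟩ := h
  obtain ⟨a, ha⟩ := Projectivization.exists_smul_eq_mk_rep K (coordinates D P u) hx
  rw [← hQ] at ha
  have ha0 : (a : K) ≠ 0 := a.ne_zero
  have hrep : ∀ i, Q.rep i = (a : K) * coordinates D P u i := by
    intro i
    rw [← ha]
    rfl
  have hs' : s / a ≠ 0 := div_ne_zero hs ha0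
  have e : ∀ i, s * coordinates D P u i = s / a * Q.rep i := by
    intro i
    rw [hrep i]
    field_simp
  obtain ⟨-, k2, -⟩ := class_eq ht hs' (e0.trans (e 0)) (e1.trans (e 1)) (e2.trans (e 2))
  rw [k2, dgr_eq hK]
  rw [show 2 * (Real.log (rad t) / 2) = Real.log (rad t) by ring, Real.exp_log (rad_pos ht)]

lemma countable_field : Countable K := by
  have h := Algebra.IsAlgebraic.cardinalMk_le_max ℚ K
  rw [← Cardinal.mk_le_aleph0_iff]
  refine h.trans ?_
  simp

lemma countable_polys : Countable (Fin 3 → K[X]) := by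
  have h1 : Countable K := countable_field
  have h2 : Countable K[X] := by
    rw [← Cardinal.mk_le_aleph0_iff]
    refine (Polynomial.cardinalMk_le_max).trans ?_
    simp
  infer_instance

end aux

/-- **Theorem.** Let `K = ℚ(√5)`, `D ≥ 1`, `q ≥ 3` and `M > D / q`. There is `ν > 0` such that for every sequence `v ≥ 1` of
exponent of convergence at most `τ ≥ 0` and every `ρ < 1` there is a set `E ⊂ ℝ` of Hausdorff dimension at most
`(2 / q - ν + τ) / (1 - ρ)` such that for each `α > 0` outside `E`, for all curves `P` of height at most `B` (any `B`) and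
all `c > 0`, for all but finitely many `i`: ALL triples `t` in lowest terms whose class is on the curve, with
`|rad t - α v_i| ≤ v_i ^ ρ`, satisfy `H(t) < c (rad t) ^ M`. The sequences `v_i = (i + 1) ^ a` and `v_i = b ^ i` have
exponent of convergence at most `1 / a` and `0`. -/
theorem result :
    (∀ (K : Type) [Field K] [NumberField K], Module.finrank ℚ K = 2 → (∃ s : K, s ^ 2 = 5) →
      ∀ (D q : ℕ), 1 ≤ D → 3 ≤ q → ∀ M : ℝ, (D : ℝ) / q < M →
      ∃ ν : ℝ, 0 < ν ∧ ∀ (v : ℕ → ℝ) (τ ρ : ℝ), (∀ i, 1 ≤ v i) → 0 ≤ τ → ExpLe v τ → ρ < 1 →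
      ∃ E : Set ℝ, dimH E ≤ ENNReal.ofReal ((2 / (q : ℝ) - ν + τ) / (1 - ρ)) ∧
        ∀ α : ℝ, 0 < α → α ∉ E → ∀ (B : ℝ) (P : Fin 3 → K[X]), Curve D q B P → ∀ c : ℝ, 0 < c →
          ∃ i₀ : ℕ, ∀ i : ℕ, i₀ ≤ i → ∀ (t : 𝓞 K × 𝓞 K × 𝓞 K) (Q : Projectivization K (Fin 3 → K)),
            Triple t → IsClass D P Q t → |rad t - α * v i| ≤ (v i) ^ ρ → height t < c * rad t ^ M) ∧
    (∀ a : ℝ, 0 < a → ExpLe (fun n : ℕ => ((n : ℝ) + 1) ^ a) (1 / a)) ∧
    (∀ b : ℝ, 1 < b → ExpLe (fun n : ℕ => b ^ n) 0) := by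
  refine ⟨fun K _ _ hK h5 D q hD hq M hM => ?_, fun κ hκ => Pool.Agent.Y854.GM.expLe_pow κ hκ,
    fun b hb => Pool.Agent.Y854.GM.expLe_geom b hb⟩
  obtain ⟨-, -, h2, -⟩ := AllThinSetsAtOnce.result K hK h5 D q hD hq
  obtain ⟨η, ν1, hη, hν1, h3⟩ := h2 M hM
  have hq3 : (3 : ℝ) ≤ q := by exact_mod_cast hq
  have hqp : (0 : ℝ) < q := by linarith
  set ν : ℝ := min ν1 (1 / q) with hν
  have hν0 : 0 < ν := lt_min hν1 (by positivity)
  have hνa : ν ≤ ν1 := min_le_left _ _
  have hνb : ν ≤ 1 / q := min_le_right _ _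
  have hs : 0 ≤ 2 / (q : ℝ) - ν := by
    have : 2 / (q : ℝ) = 1 / q + 1 / q := by ring
    have h0 : 0 < 1 / (q : ℝ) := by positivity
    linarith
  refine ⟨ν, hν0, fun v τ ρ hv hτ hE hρ => ?_⟩
  -- fixed data and a fixed constant `1 / (n + 1)`
  have key : ∀ z : (Fin 3 → K[X]) × ℕ, ∃ E : Set ℝ,
      dimH E ≤ ENNReal.ofReal ((2 / (q : ℝ) - ν + τ) / (1 - ρ)) ∧
      ((∃ B : ℝ, Curve D q B z.1) → ∀ α : ℝ, 0 < α → α ∉ E →
        ∃ i₀ : ℕ, ∀ i : ℕ, i₀ ≤ i → ∀ (t : 𝓞 K × 𝓞 K × 𝓞 K) (Q : Projectivization K (Fin 3 → K)),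
            Triple t → IsClass D z.1 Q t → |rad t - α * v i| ≤ (v i) ^ ρ →
              height t < 1 / ((z.2 : ℝ) + 1) * rad t ^ M) := by
    rintro ⟨P, n⟩
    by_cases hdata : ∃ B : ℝ, Curve D q B P
    swap
    · exact ⟨∅, by simp, fun h => absurd h hdata⟩
    obtain ⟨B, hB⟩ := hdata
    have hn0 : (0 : ℝ) < 1 / ((n : ℝ) + 1) := by positivity
    obtain ⟨⟨C, hC⟩, -⟩ := h3 (1 / ((n : ℝ) + 1)) hn0
    -- the curve is of height at most `η log X` for `X ≥ X₁`
    set X₁ : ℝ := Real.exp (max B 0 / η) with hX1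
    have hX1p : 0 < X₁ := Real.exp_pos _
    have hX11 : 1 ≤ X₁ := Real.one_le_exp (by positivity)
    have hdataX : ∀ X : ℝ, X₁ ≤ X → Curve D q (η * Real.log X) P := by
      intro X hX
      have h4 : B ≤ η * Real.log X := by
        have h5 : max B 0 / η ≤ Real.log X := by
          rw [← Real.log_exp (max B 0 / η)]
          exact Real.log_le_log hX1p hX
        rw [div_le_iff₀ hη] at h5
        linarith [le_max_left B 0]
      exact { hB with height_le := hB.height_le.trans h4 }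
    obtain ⟨E, hE1, hE2⟩ := Pool.Agent.Y854.GM.windows
      {Q : Projectivization K (Fin 3 → K) | ∃ t : 𝓞 K × 𝓞 K × 𝓞 K, Triple t ∧ IsClass D P Q t ∧
        1 / ((n : ℝ) + 1) * rad t ^ M ≤ height t}
      (fun Q => Real.exp (2 * rS ((∅ : Finset (HeightOneSpectrum (𝓞 K))) : Set (HeightOneSpectrum (𝓞 K))) Q.rep))
      (s := 2 / (q : ℝ) - ν) hv hτ hE hs hρ (by
        intro ε hε
        refine ⟨|C| * X₁ ^ |2 / (q : ℝ) - ν1|, fun X hX => ?_⟩
        have hYX : X₁ ≤ X₁ * X := by nlinarith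
        have hY1 : 1 ≤ X₁ * X := hX11.trans hYX
        have hXY : X ≤ X₁ * X := by nlinarith
        obtain ⟨h5, h6⟩ := hC (X₁ * X) hY1
        have hsub : {Q : Projectivization K (Fin 3 → K) | Q ∈ {Q : Projectivization K (Fin 3 → K) |
            ∃ t : 𝓞 K × 𝓞 K × 𝓞 K, Triple t ∧ IsClass D P Q t ∧ 1 / ((n : ℝ) + 1) * rad t ^ M ≤ height t} ∧
            Real.exp (2 * rS ((∅ : Finset (HeightOneSpectrum (𝓞 K))) : Set (HeightOneSpectrum (𝓞 K))) Q.rep) ≤ X} ⊆
            Exceptions K D q η M (1 / ((n : ℝ) + 1)) (X₁ * X) := by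
          rintro Q ⟨⟨t, ht, hcl, hle⟩, hXQ⟩
          rw [rad_of_class hK ht hcl] at hXQ
          exact ⟨P, hdataX _ hYX, t, ht, hXQ.trans hXY, hcl, hle⟩
        refine ⟨h5.subset hsub, ?_⟩
        calc (({Q : Projectivization K (Fin 3 → K) | Q ∈ {Q : Projectivization K (Fin 3 → K) |
            ∃ t : 𝓞 K × 𝓞 K × 𝓞 K, Triple t ∧ IsClass D P Q t ∧ 1 / ((n : ℝ) + 1) * rad t ^ M ≤ height t} ∧
            Real.exp (2 * rS ((∅ : Finset (HeightOneSpectrum (𝓞 K))) : Set (HeightOneSpectrum (𝓞 K))) Q.rep) ≤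
              X}.ncard : ℕ) : ℝ)
            ≤ ((Exceptions K D q η M (1 / ((n : ℝ) + 1)) (X₁ * X)).ncard : ℝ) := by
              exact_mod_cast Set.ncard_le_ncard hsub h5
          _ ≤ C * (X₁ * X) ^ (2 / (q : ℝ) - ν1) := h6
          _ ≤ |C| * (X₁ * X) ^ (2 / (q : ℝ) - ν1) :=
              mul_le_mul_of_nonneg_right (le_abs_self C) (by positivity)
          _ = |C| * (X₁ ^ (2 / (q : ℝ) - ν1) * X ^ (2 / (q : ℝ) - ν1)) := by
              rw [Real.mul_rpow hX1p.le (by positivity)]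
          _ ≤ |C| * (X₁ ^ |2 / (q : ℝ) - ν1| * X ^ (2 / (q : ℝ) - ν + ε)) := by
              apply mul_le_mul_of_nonneg_left _ (abs_nonneg C)
              apply mul_le_mul (Real.rpow_le_rpow_of_exponent_le hX11 (le_abs_self _))
                (Real.rpow_le_rpow_of_exponent_le hX (by linarith)) (by positivity) (by positivity)
          _ = _ := by ring)
    refine ⟨E, hE1, fun _ α hα hαE => ?_⟩
    obtain ⟨i₀, hi₀⟩ := hE2 α hα hαE
    refine ⟨i₀, fun i hi t Q ht hcl hwin => ?_⟩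
    by_contra hcon
    push Not at hcon
    have h9 := hi₀ i hi Q ⟨t, ht, hcl, hcon⟩
    simp only [rad_of_class hK ht hcl] at h9
    exact absurd hwin (not_le.2 h9)
  have hc2 : Countable (Fin 3 → K[X]) := countable_polys
  choose Es hEs1 hEs2 using key
  refine ⟨⋃ z, Es z, ?_, fun α hα hαE B P hdata c hc => ?_⟩
  · rw [dimH_iUnion]
    exact iSup_le hEs1
  · obtain ⟨n, hn⟩ := exists_nat_one_div_lt hc
    obtain ⟨i₀, hi₀⟩ := hEs2 (P, n) ⟨B, hdata⟩ α hα (fun hm => hαE (Set.mem_iUnion.2 ⟨_, hm⟩))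
    refine ⟨i₀, fun i hi t Q ht hcl hwin => (hi₀ i hi t Q ht hcl hwin).trans_le ?_⟩
    have h1 : 0 < rad t ^ M := Real.rpow_pos_of_pos (rad_pos ht) M
    exact mul_le_mul_of_nonneg_right hn.le h1.le

end Pool.Agent.Results.MP_2a5a28_nt.RadicalsInWindows
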