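import Pool.Agent.X61.RS.NK
import Pool.Agent.X61.RS.PrimesK

/-!
# abc over the integers of a number field and random sets of primes

Let `T` be a random set of `k` primes of norm at most `N` of a number field, for example of `ℚ(√5)`. No triple
`a + b + c = 0` in lowest terms, of height at most `exp L`, is divisible by a prime of `T` and has a small radical
outside `T`, except for a small proportion of the sets `T`.
-/

set_option autoImplicit false

namespace Pool.Agent.Results.MP_2a5a28_nt.RandomPrimeIdeals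

open NumberField IsDedekindDomain Finset

variable {K : Type} [Field K] [NumberField K]

/-- the triples of integers in lowest terms with `a + b + c = 0` and `abc ≠ 0` -/
structure Triple (t : 𝓞 K × 𝓞 K × 𝓞 K) : Prop where
  sum : t.1 + t.2.1 + t.2.2 = 0
  ne : t.1 * t.2.1 * t.2.2 ≠ 0
  cop : Ideal.span {t.1, t.2.1, t.2.2} = (⊤ : Ideal (𝓞 K))

/-- the height `H(a, b, c)`: the product over the field embeddings `φ : K → ℂ` (two real ones when
`K = ℚ(√5)`) of `max (|φ a|, |φ b|, |φ c|)` -/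
noncomputable def height (t : 𝓞 K × 𝓞 K × 𝓞 K) : ℝ :=
  ∏ φ : K →+* ℂ, max ‖φ t.1‖ (max ‖φ t.2.1‖ ‖φ t.2.2‖)

/-- the product of the norms of the primes outside `S` dividing `abc` -/
noncomputable def outer (S : Finset (HeightOneSpectrum (𝓞 K))) (t : 𝓞 K × 𝓞 K × 𝓞 K) : ℝ :=
  ∏ᶠ (v : HeightOneSpectrum (𝓞 K)) (_ : t.1 * t.2.1 * t.2.2 ∈ v.asIdeal ∧ v ∉ S),
    (Ideal.absNorm v.asIdeal : ℝ)

open Classical in
/-- no prime of `T` divides `abc` for a triple in lowest terms of height at most `exp L` such that the product of the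
norms of the primes outside `S₀ ∪ T` dividing `abc` is at most `Y` -/
def Good (S₀ T : Finset (HeightOneSpectrum (𝓞 K))) (L Y : ℝ) : Prop :=
  ∀ t : 𝓞 K × 𝓞 K × 𝓞 K, Triple t → height t ≤ Real.exp L → outer (S₀ ∪ T) t ≤ Y →
    ∀ v ∈ T, t.1 * t.2.1 * t.2.2 ∉ v.asIdeal

section aux

open Pool.Agent.X61.RS Pool.Agent.X61.RS.NK Pool.Agent.TH876.Loc

open Classical in
theorem bad_of_not_good {S₀ T : Finset (HeightOneSpectrum (𝓞 K))} {L Y : ℝ} (hL : 1 ≤ L)
    (h : ¬ Good S₀ T L Y) : BadF (fun v : HeightOneSpectrum (𝓞 K) => (Ideal.absNorm v.asIdeal : ℝ))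
      (Fam K L) S₀ T Y := by
  unfold Good at h
  push Not at h
  obtain ⟨t, ht, hH, hY, v, hv, hvt⟩ := h
  have ht' : Pool.Agent.TH402.AK.Trip.Triple t := ⟨ht.sum, ht.ne, ht.cop⟩
  have hsp : ∀ P : HeightOneSpectrum (𝓞 K), P ∈ sp (Pool.Agent.TH402.AK.pt t.1 t.2.1) ↔
      t.1 * t.2.1 * t.2.2 ∈ P.asIdeal := by
    intro P
    rw [ht'.tri.mem_sp, ht'.c_eq, mul_neg, neg_mem_iff]
  refine ⟨sp (Pool.Agent.TH402.AK.pt t.1 t.2.1), ⟨Pool.Agent.TH402.AK.pt t.1 t.2.1, ht'.tri.pt, ?_, rfl⟩,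
    ⟨v, hv, (hsp v).2 hvt⟩, ?_⟩
  · rw [← Pool.Agent.TH402.AK.Trip.hgt_eq ht']
    have h4 : 0 ≤ height t := prod_nonneg fun φ _ => (norm_nonneg _).trans (le_max_left _ _)
    rcases h4.eq_or_lt with h5 | h5
    · have h6 : Pool.Agent.TH402.AK.Trip.height t = 0 := h5.symm
      rw [h6, Real.log_zero]
      linarith
    · exact (Real.log_le_iff_le_exp h5).2 hH
  · refine le_trans (le_of_eq ?_) hY
    have h3 : {v : HeightOneSpectrum (𝓞 K) | t.1 * t.2.1 * t.2.2 ∈ v.asIdeal ∧ v ∉ S₀ ∪ T} =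
        (((sp (Pool.Agent.TH402.AK.pt t.1 t.2.1)).filter (fun i => i ∉ S₀ ∧ i ∉ T) :
          Finset (HeightOneSpectrum (𝓞 K))) : Set (HeightOneSpectrum (𝓞 K))) := by
      ext v
      rw [coe_filter, Set.mem_ofPred_eq, Set.mem_ofPred_eq, hsp, mem_union, not_or]
    have h4 := finprod_mem_coe_finset (fun v : HeightOneSpectrum (𝓞 K) =>
      (Ideal.absNorm v.asIdeal : ℝ)) ((sp (Pool.Agent.TH402.AK.pt t.1 t.2.1)).filter
        (fun i => i ∉ S₀ ∧ i ∉ T))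
    rw [← h4, ← h3]
    rfl

open Classical in
theorem part1 (K : Type) [Field K] [NumberField K] {ε : ℝ} (hε : 0 < ε) : ∃ C : ℝ, 0 < C ∧
    ∀ (S₀ P : Finset (HeightOneSpectrum (𝓞 K))) (N Y L : ℝ) (k : ℕ),
      (∀ v ∈ P, v ∉ S₀ ∧ (Ideal.absNorm v.asIdeal : ℝ) ≤ N) → 1 ≤ Y → 1 ≤ L →
      (((P.powersetCard k).filter (fun T => ¬ Good S₀ T L Y)).card : ℝ) * P.card ≤
        C * L * k * (N * Y * ∏ v ∈ S₀, (Ideal.absNorm v.asIdeal : ℝ)) ^ (2 / 3 + ε) *
          P.card.choose k := by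
  obtain ⟨C, hC, h⟩ := K_count K hε
  refine ⟨C, hC, fun S₀ P N Y L k hP hY hL => ?_⟩
  have hcard : (((P.powersetCard k).filter (fun T => ¬ Good S₀ T L Y)).card : ℝ) ≤
      (((P.powersetCard k).filter (fun T => BadF (fun v : HeightOneSpectrum (𝓞 K) =>
        (Ideal.absNorm v.asIdeal : ℝ)) (Fam K L) S₀ T Y)).card : ℝ) := by
    have : (P.powersetCard k).filter (fun T => ¬ Good S₀ T L Y) ⊆
        (P.powersetCard k).filter (fun T => BadF (fun v : HeightOneSpectrum (𝓞 K) =>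
        (Ideal.absNorm v.asIdeal : ℝ)) (Fam K L) S₀ T Y) := by
      intro T hT
      rw [mem_filter] at hT ⊢
      exact ⟨hT.1, bad_of_not_good hL hT.2⟩
    exact_mod_cast card_le_card this
  exact (mul_le_mul_of_nonneg_right hcard (Nat.cast_nonneg _)).trans (h S₀ P N Y L k hP hY hL)

end aux

open Classical in
/-- Let `K` be a number field. (1) For `ε > 0` there is `C` such that for all disjoint finite sets `S₀`, `P` of primes of
`K`, the primes of `P` of norm at most `N`, all `Y, L ≥ 1` and all `k` the number of the `k`-element sets `T ⊆ P` which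
are not good is at most `C L k (N Y W) ^ (2 / 3 + ε) / |P|` times the number of all `k`-element sets `T ⊆ P`, where `W` is
the product of the norms of the primes in `S₀`.
(2) For every finite set `S₀` of primes and `0 < δ < 1 / 3` there is `N₀` such that for `N ≥ N₀`, `L, Y ≥ 1` and `k`
with `k L Y ^ (2 / 3 + δ) ≤ N ^ (1 / 3 - δ)` at most the proportion `N ^ (-δ / 4)` of the `k`-element sets `T` of primes
of norm at most `N` outside `S₀` are not good. -/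
theorem result (K : Type) [Field K] [NumberField K] :
    (∀ ε : ℝ, 0 < ε → ∃ C : ℝ, 0 < C ∧
      ∀ (S₀ P : Finset (HeightOneSpectrum (𝓞 K))) (N Y L : ℝ) (k : ℕ),
        (∀ v ∈ P, v ∉ S₀ ∧ (Ideal.absNorm v.asIdeal : ℝ) ≤ N) → 1 ≤ Y → 1 ≤ L →
        (((P.powersetCard k).filter (fun T => ¬ Good S₀ T L Y)).card : ℝ) * P.card ≤
          C * L * k * (N * Y * ∏ v ∈ S₀, (Ideal.absNorm v.asIdeal : ℝ)) ^ (2 / 3 + ε) *
            P.card.choose k) ∧
    (∀ (S₀ : Finset (HeightOneSpectrum (𝓞 K))) (δ : ℝ), 0 < δ → δ < 1 / 3 → ∃ N₀ : ℕ, ∀ N : ℕ, N₀ ≤ N →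
      ∀ P : Finset (HeightOneSpectrum (𝓞 K)),
        (∀ v : HeightOneSpectrum (𝓞 K), v ∈ P ↔ Ideal.absNorm v.asIdeal ≤ N ∧ v ∉ S₀) →
        ∀ (L Y : ℝ) (k : ℕ), 1 ≤ L → 1 ≤ Y → (k : ℝ) * L * Y ^ (2 / 3 + δ) ≤ (N : ℝ) ^ (1 / 3 - δ) →
          (((P.powersetCard k).filter (fun T => ¬ Good S₀ T L Y)).card : ℝ) ≤
            (N : ℝ) ^ (-(δ / 4)) * (P.powersetCard k).card) := by
  refine ⟨fun ε hε => part1 K hε, fun S₀ δ hδ hδ1 => ?_⟩
  obtain ⟨C, hC, h⟩ := part1 K (show 0 < δ / 4 by positivity)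
  obtain ⟨N₁, hN₁⟩ := Pool.Agent.X61.RS.NK.primes_lower K S₀ (show 0 < δ / 4 by positivity) (by linarith)
  set W : ℝ := ∏ v ∈ S₀, (Ideal.absNorm v.asIdeal : ℝ) with hW
  have hW1 : 1 ≤ W := by
    calc (1 : ℝ) = ∏ _v ∈ S₀, (1 : ℝ) := by simp
      _ ≤ _ := prod_le_prod (fun _ _ => zero_le_one) fun v _ => Pool.Agent.X61.RS.NF.nm_pos v
  set D : ℝ := C * W ^ (2 / 3 + δ / 4) with hD
  have hev := (tendsto_rpow_atTop (show 0 < δ / 4 by positivity)).eventually_ge_atTop D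
  obtain ⟨x₀, hx₀⟩ := Filter.eventually_atTop.1 hev
  obtain ⟨N₂, hN₂⟩ := exists_nat_ge (max x₀ 1)
  refine ⟨max N₁ N₂, fun N hN P hP L Y k hL hY hk => ?_⟩
  have hN1 : N₁ ≤ N := (le_max_left _ _).trans hN
  have hNx : max x₀ 1 ≤ N := hN₂.trans (by exact_mod_cast (le_max_right _ _).trans hN)
  have hNr : (1 : ℝ) ≤ N := (le_max_right _ _).trans hNx
  have hN0 : (0 : ℝ) < N := by linarith
  have hDN : D ≤ (N : ℝ) ^ (δ / 4) := hx₀ _ ((le_max_left _ _).trans hNx)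
  have hcard := hN₁ N hN1 P (fun v hv hv' => (hP v).2 ⟨hv, hv'⟩)
  have h1 := h S₀ P N Y L k (fun v hv => ⟨((hP v).1 hv).2, by exact_mod_cast ((hP v).1 hv).1⟩) hY hL
  have hPpos : (0 : ℝ) < P.card := lt_of_lt_of_le (by positivity) hcard
  have h2 : C * L * k * ((N : ℝ) * Y * W) ^ (2 / 3 + δ / 4) ≤ (N : ℝ) ^ (-(δ / 4)) * P.card := by
    have e1 : ((N : ℝ) * Y * W) ^ (2 / 3 + δ / 4) =
        (N : ℝ) ^ (2 / 3 + δ / 4) * Y ^ (2 / 3 + δ / 4) * W ^ (2 / 3 + δ / 4) := by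
      rw [Real.mul_rpow (by positivity) (by positivity), Real.mul_rpow (by positivity) (by positivity)]
    have e2 : Y ^ (2 / 3 + δ / 4) ≤ Y ^ (2 / 3 + δ) :=
      Real.rpow_le_rpow_of_exponent_le hY (by linarith)
    calc C * L * k * ((N : ℝ) * Y * W) ^ (2 / 3 + δ / 4)
        = D * (k * L * Y ^ (2 / 3 + δ / 4)) * (N : ℝ) ^ (2 / 3 + δ / 4) := by
          rw [e1, hD]
          ring
      _ ≤ (N : ℝ) ^ (δ / 4) * (k * L * Y ^ (2 / 3 + δ)) * (N : ℝ) ^ (2 / 3 + δ / 4) := by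
          gcongr
      _ ≤ (N : ℝ) ^ (δ / 4) * (N : ℝ) ^ (1 / 3 - δ) * (N : ℝ) ^ (2 / 3 + δ / 4) := by
          gcongr
      _ = (N : ℝ) ^ (-(δ / 4)) * (N : ℝ) ^ (1 - δ / 4) := by
          rw [← Real.rpow_add hN0, ← Real.rpow_add hN0, ← Real.rpow_add hN0]
          congr 1
          ring
      _ ≤ _ := mul_le_mul_of_nonneg_left hcard (by positivity)
  rw [card_powersetCard]
  refine le_of_mul_le_mul_right ?_ hPpos
  calc (((P.powersetCard k).filter (fun T => ¬ Good S₀ T L Y)).card : ℝ) * P.card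
      ≤ C * L * k * ((N : ℝ) * Y * W) ^ (2 / 3 + δ / 4) * P.card.choose k := h1
    _ ≤ ((N : ℝ) ^ (-(δ / 4)) * P.card) * P.card.choose k :=
        mul_le_mul_of_nonneg_right h2 (Nat.cast_nonneg _)
    _ = _ := by ring

end Pool.Agent.Results.MP_2a5a28_nt.RandomPrimeIdeals
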