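import Pool.Agent.Results.MP_2a5a28_nt.ExceptionalSet
import Pool.Agent.X16.NW.E

/-!
# The abc conjecture over the integers of `ℚ(√5)` without exceptions near the real powers `t ^ κ_n` and `n ^ t`

Let `f_n(t)` be a family of functions of a real parameter `t` whose logarithmic slopes are locally bounded from below by
a positive constant and which locally is at least `w_n ≥ 1` for a sequence `w` of exponent of convergence at most `τ`
(definition `Steep`). Examples: `t ^ κ_n` with `κ_n / log n → ∞` on `(1, ∞)`, `τ = 0`; `n ^ t` on `[a, ∞)`, `τ = 1 / a`.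
Let `0 ≤ θ < 1`. For all `t` outside a set of Hausdorff dimension at most `(20 / 37 + τ) / (1 - θ)` and each `M`, for all
large `n`, ALL triples `a + b + c = 0`, `abc ≠ 0`, in lowest terms of integers of `ℚ(√5)` whose height `H` satisfies
`|H - f_n(t)| ≤ f_n(t) ^ θ` have a radical larger than `M H`.

The number of exceptions up to units is from the starting result `ExceptionalSet`, the passage to nonlinear windows is
`Pool.Agent.X16.NW`.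
-/

set_option autoImplicit false

open Filter MeasureTheory

namespace Pool.Agent.Results.MP_2a5a28_nt.RealPowers

open NumberField IsDedekindDomain
open ExceptionalSet (Triple height rad)

/-- the exponent of convergence of the sequence `w` is at most `τ` -/
def ExpLe (w : ℕ → ℝ) (τ : ℝ) : Prop := ∀ p : ℝ, τ < p → Summable (fun n : ℕ => (w n) ^ (-p))

/-- The set `I` of parameters is a countable union of sets `J`, such that on `J`, for all large `n`, `f_n ≥ w_n ≥ 1` for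
a sequence `w` of exponent of convergence at most `τ` and the logarithmic slopes of `f_n` are at least `c > 0`. -/
def Steep (f : ℕ → ℝ → ℝ) (I : Set ℝ) (τ : ℝ) : Prop :=
  ∃ J : ℕ → Set ℝ, I ⊆ ⋃ m, J m ∧ ∀ m, ∃ (w : ℕ → ℝ) (c : ℝ) (n₁ : ℕ), 0 < c ∧ ExpLe w τ ∧
    ∀ n, n₁ ≤ n → 1 ≤ w n ∧ ∀ t ∈ J m, w n ≤ f n t ∧ ∀ u ∈ J m, t ≤ u → c * f n t * (u - t) ≤ f n u - f n t

variable {K : Type} [Field K] [NumberField K]

lemma prod_unit (u : (𝓞 K)ˣ) : ∏ φ : K →+* ℂ, ‖φ (((u : 𝓞 K)) : K)‖ = 1 := by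
  have h1 : ∏ φ : K →+* ℂ, ‖φ ((u : 𝓞 K) : K)‖ = ∏ σ : K →ₐ[ℚ] ℂ, ‖σ ((u : 𝓞 K) : K)‖ :=
    Fintype.prod_equiv (RingHom.equivRatAlgHom K ℂ) _ _ (fun φ => rfl)
  rw [h1, ← norm_prod, ← Algebra.norm_eq_prod_embeddings]
  have h2 : |(RingOfIntegers.norm ℚ (u : 𝓞 K) : ℚ)| = 1 := NumberField.isUnit_iff_norm.1 u.isUnit
  rw [RingOfIntegers.coe_norm] at h2
  have h3 : ‖(algebraMap ℚ ℂ) ((Algebra.norm ℚ) ((u : 𝓞 K) : K))‖ =
      ((|(Algebra.norm ℚ) ((u : 𝓞 K) : K)| : ℚ) : ℝ) := by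
    rw [eq_ratCast, Complex.norm_ratCast]
    push_cast
    rfl
  rw [h3, h2]
  norm_num

lemma height_unit (u : (𝓞 K)ˣ) (t : 𝓞 K × 𝓞 K × 𝓞 K) :
    height ((u : 𝓞 K) * t.1, (u : 𝓞 K) * t.2.1, (u : 𝓞 K) * t.2.2) = height t := by
  have h : ∀ φ : K →+* ℂ, max ‖φ (((u : 𝓞 K) * t.1 : 𝓞 K) : K)‖
      (max ‖φ (((u : 𝓞 K) * t.2.1 : 𝓞 K) : K)‖ ‖φ (((u : 𝓞 K) * t.2.2 : 𝓞 K) : K)‖) =
      ‖φ ((u : 𝓞 K) : K)‖ * max ‖φ t.1‖ (max ‖φ t.2.1‖ ‖φ t.2.2‖) := by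
    intro φ
    simp only [map_mul, norm_mul]
    rw [mul_max_of_nonneg _ _ (norm_nonneg _), mul_max_of_nonneg _ _ (norm_nonneg _)]
  unfold height
  rw [Finset.prod_congr rfl (fun φ _ => h φ), Finset.prod_mul_distrib, prod_unit, one_mul]

/-- the heights of the exceptional triples -/
def Exc (K : Type) [Field K] [NumberField K] (κ : ℝ) : Set ℝ :=
  {x : ℝ | ∃ t : 𝓞 K × 𝓞 K × 𝓞 K, Triple t ∧ height t = x ∧ rad t ≤ κ * height t}

lemma count (hd : Module.finrank ℚ K = 2) (h5 : ∃ s : K, s ^ 2 = 5) (κ ε : ℝ) (hε : 0 < ε) :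
    ∃ C : ℝ, ∀ X : ℝ, 1 ≤ X → {x | x ∈ Exc K κ ∧ x ≤ X}.Finite ∧
      ({x | x ∈ Exc K κ ∧ x ≤ X}.ncard : ℝ) ≤ C * X ^ (20 / 37 + ε) := by
  classical
  obtain ⟨C, hC⟩ := ExceptionalSet.result K hd h5 κ ε hε
  refine ⟨C, fun X hX => ?_⟩
  have key : ∀ F : Finset ℝ, (F : Set ℝ) ⊆ {x | x ∈ Exc K κ ∧ x ≤ X} → (F.card : ℝ) ≤ C * X ^ (20 / 37 + ε) := by
    intro F hF
    have hch : ∀ x : ℝ, ∃ t : 𝓞 K × 𝓞 K × 𝓞 K, x ∈ F → (Triple t ∧ height t = x ∧ rad t ≤ κ * height t) := by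
      intro x
      by_cases hx : x ∈ F
      · obtain ⟨t, ht⟩ := (hF hx).1
        exact ⟨t, fun _ => ht⟩
      · exact ⟨0, fun h => absurd h hx⟩
    choose g hg using hch
    have hinj : Set.InjOn g (F : Set ℝ) := by
      intro x hx y hy hxy
      have h1 := (hg x hx).2.1
      have h2 := (hg y hy).2.1
      rw [← h1, ← h2, hxy]
    have hcard : (F.image g).card = F.card := Finset.card_image_of_injOn hinj
    rw [← hcard]
    apply hC X hX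
    · intro t ht
      obtain ⟨x, hx, rfl⟩ := Finset.mem_image.1 ht
      obtain ⟨h1, h2, h3⟩ := hg x hx
      exact ⟨h1, by rw [h2]; exact (hF hx).2, h3⟩
    · intro t ht s hs u hu
      obtain ⟨x, hx, rfl⟩ := Finset.mem_image.1 ht
      obtain ⟨y, hy, rfl⟩ := Finset.mem_image.1 hs
      have h1 := (hg x hx).2.1
      have h2 := (hg y hy).2.1
      have h3 : y = x := by
        rw [← h1, ← h2, hu]
        exact height_unit u (g x)
      rw [h3]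
  have hfin : {x | x ∈ Exc K κ ∧ x ≤ X}.Finite := by
    by_contra hinf
    obtain ⟨F, hF, hF2⟩ := (show {x | x ∈ Exc K κ ∧ x ≤ X}.Infinite from hinf).exists_subset_card_eq
      (⌊C * X ^ (20 / 37 + ε)⌋₊ + 1)
    have h1 := key F hF
    rw [hF2] at h1
    push_cast at h1
    exact absurd h1 (not_le.2 (Nat.lt_floor_add_one _))
  refine ⟨hfin, ?_⟩
  rw [Set.ncard_eq_toFinset_card _ hfin]
  exact key _ (by simp)

lemma step (κ : ℝ) (k : ℕ) (hk : κ ≤ k) (t : 𝓞 K × 𝓞 K × 𝓞 K) (ht : Triple t) (y r : ℝ)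
    (hw : |height t - y| ≤ r) (h : ∀ x ∈ Exc K (k : ℝ), r < |x - y|) : κ * height t < rad t := by
  have hpos : 0 ≤ height t := by
    unfold height
    exact Finset.prod_nonneg (fun φ _ => (norm_nonneg _).trans (le_max_left _ _))
  by_contra hcon
  push Not at hcon
  refine absurd (h (height t) ⟨t, ht, rfl, hcon.trans ?_⟩) (not_lt.2 hw)
  exact mul_le_mul_of_nonneg_right hk hpos

/-- **Theorem.** Let `K = ℚ(√5)`. (1) Let `f` be a steep family on `I` with exponent `τ ≥ 0` and `0 ≤ θ < 1`. There is a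
set `E` of Hausdorff dimension at most `(20 / 37 + τ) / (1 - θ)` such that for each `t ∈ I` outside `E` and each `M`, for
all large `n`, ALL triples `a + b + c = 0` in lowest terms with `abc ≠ 0` whose height `H` satisfies
`|H - f_n(t)| ≤ f_n(t) ^ θ` have a radical larger than `M H`.

(2), (3) The families `t ^ κ_n`, `κ_n / log n → ∞`, on `(1, ∞)` and `n ^ t` on `[a, ∞)` are steep with exponents `0` and
`1 / a`.

(4), (5) Let `0 ≤ θ < 17 / 37`. For almost all `t > 1` the conclusion of (1) holds for `f_n(t) = t ^ κ_n`, and for almost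
all `t > 37 / (17 - 37 θ)` for `f_n(t) = n ^ t`. -/
theorem result :
    (∀ (K : Type) [Field K] [NumberField K], Module.finrank ℚ K = 2 → (∃ s : K, s ^ 2 = 5) →
      ∀ (f : ℕ → ℝ → ℝ) (I : Set ℝ) (τ θ : ℝ), Steep f I τ → 0 ≤ τ → 0 ≤ θ → θ < 1 →
      ∃ E : Set ℝ, dimH E ≤ ENNReal.ofReal ((20 / 37 + τ) / (1 - θ)) ∧
        ∀ t ∈ I, t ∉ E → ∀ M : ℝ, ∃ n₀ : ℕ, ∀ n : ℕ, n₀ ≤ n → ∀ T : 𝓞 K × 𝓞 K × 𝓞 K, Triple T →
          |height T - f n t| ≤ (f n t) ^ θ → M * height T < rad T) ∧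
    (∀ κ : ℕ → ℝ, Tendsto (fun n : ℕ => κ n / Real.log n) atTop atTop →
      Steep (fun n t => t ^ κ n) (Set.Ioi (1 : ℝ)) 0) ∧
    (∀ a : ℝ, 0 < a → Steep (fun n t => (n : ℝ) ^ t) (Set.Ici a) (1 / a)) ∧
    (∀ (K : Type) [Field K] [NumberField K], Module.finrank ℚ K = 2 → (∃ s : K, s ^ 2 = 5) →
      ∀ κ : ℕ → ℝ, Tendsto (fun n : ℕ => κ n / Real.log n) atTop atTop → ∀ θ : ℝ, 0 ≤ θ → θ < 17 / 37 →
      ∀ᵐ t : ℝ, 1 < t → ∀ M : ℝ, ∃ n₀ : ℕ, ∀ n : ℕ, n₀ ≤ n → ∀ T : 𝓞 K × 𝓞 K × 𝓞 K, Triple T →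
          |height T - t ^ κ n| ≤ (t ^ κ n) ^ θ → M * height T < rad T) ∧
    (∀ (K : Type) [Field K] [NumberField K], Module.finrank ℚ K = 2 → (∃ s : K, s ^ 2 = 5) →
      ∀ θ : ℝ, 0 ≤ θ → θ < 17 / 37 → ∀ᵐ t : ℝ, 37 / (17 - 37 * θ) < t → ∀ M : ℝ,
      ∃ n₀ : ℕ, ∀ n : ℕ, n₀ ≤ n → ∀ T : 𝓞 K × 𝓞 K × 𝓞 K, Triple T →
          |height T - (n : ℝ) ^ t| ≤ ((n : ℝ) ^ t) ^ θ → M * height T < rad T) := by
  refine ⟨fun K _ _ hd h5 f I τ θ hf hτ hθ0 hθ => ?_,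
    fun κ hκ => Pool.Agent.X16.NW.loc_rpow κ hκ, fun a ha => Pool.Agent.X16.NW.loc_npow a ha,
    fun K _ _ hd h5 κ hκ θ hθ0 hθ => ?_, fun K _ _ hd h5 θ hθ0 hθ => ?_⟩
  · have hall : ∀ k : ℕ, ∃ E : Set ℝ, dimH E ≤ ENNReal.ofReal ((20 / 37 + τ) / (1 - θ)) ∧
        ∀ t ∈ I, t ∉ E → ∃ n₀ : ℕ, ∀ n : ℕ, n₀ ≤ n → ∀ x ∈ Exc K (k : ℝ), (f n t) ^ θ < |x - f n t| :=
      fun k => Pool.Agent.X16.NW.windows_loc (Exc K (k : ℝ)) (fun x => x) hτ (s := 20 / 37) (by norm_num) hθ0 hθ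
        (fun ε hε => count hd h5 k ε hε) I f hf
    choose E hE1 hE2 using hall
    refine ⟨⋃ k, E k, ?_, fun t ht htE M => ?_⟩
    · rw [dimH_iUnion]
      exact iSup_le hE1
    · obtain ⟨k, hk⟩ := exists_nat_ge M
      obtain ⟨n₀, hn⟩ := hE2 k t ht (fun h => htE (Set.mem_iUnion.2 ⟨k, h⟩))
      exact ⟨n₀, fun n hn1 T hT hw => step M k hk T hT _ _ hw (hn n hn1)⟩
  · have hall : ∀ k : ℕ, ∀ᵐ t : ℝ, 1 < t → ∃ n₀ : ℕ, ∀ n : ℕ, n₀ ≤ n → ∀ x ∈ Exc K (k : ℝ),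
        (t ^ κ n) ^ θ < |x - t ^ κ n| := fun k =>
      Pool.Agent.X16.NW.ae_rpow (Exc K (k : ℝ)) (fun x => x) (s := 20 / 37) (by norm_num)
        (fun ε hε => count hd h5 k ε hε) κ hκ θ hθ0 (by linarith)
    filter_upwards [ae_all_iff.2 hall] with t ht ht1 M
    obtain ⟨k, hk⟩ := exists_nat_ge M
    obtain ⟨n₀, hn⟩ := ht k ht1
    exact ⟨n₀, fun n hn1 T hT hw => step M k hk T hT _ _ hw (hn n hn1)⟩
  · have h1 : 1 / (1 - 20 / 37 - θ) = 37 / (17 - 37 * θ) := by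
      rw [div_eq_div_iff (by linarith) (by linarith)]
      ring
    have hall : ∀ k : ℕ, ∀ᵐ t : ℝ, 1 / (1 - 20 / 37 - θ) < t → ∃ n₀ : ℕ, ∀ n : ℕ, n₀ ≤ n → ∀ x ∈ Exc K (k : ℝ),
        ((n : ℝ) ^ t) ^ θ < |x - (n : ℝ) ^ t| := fun k =>
      Pool.Agent.X16.NW.ae_npow (Exc K (k : ℝ)) (fun x => x) (s := 20 / 37) (by norm_num)
        (fun ε hε => count hd h5 k ε hε) θ hθ0 (by linarith)
    filter_upwards [ae_all_iff.2 hall] with t ht ht1 M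
    rw [← h1] at ht1
    obtain ⟨k, hk⟩ := exists_nat_ge M
    obtain ⟨n₀, hn⟩ := ht k ht1
    exact ⟨n₀, fun n hn1 T hT hw => step M k hk T hT _ _ hw (hn n hn1)⟩

end Pool.Agent.Results.MP_2a5a28_nt.RealPowers
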